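import Mathlib

open Finset

namespace Pool.Agent.L7h63.RW

/-- the base group `Z^6`, written multiplicatively -/
abbrev Q := Fin 6 → Multiplicative ℤ
/-- the lamp group -/
abbrev L := Equiv.Perm (Fin 4) × (Fin 6 → ℤˣ)
/-- the wreath product -/
abbrev W := L ≀ᵣ Q

/-- the lamp element at the origin -/
def lamp : L →* W where
  toFun a := ⟨fun x => if x = 1 then a else 1, 1⟩
  map_one' := by
    ext x <;> simp
  map_mul' a b := by
    ext x : 2
    · by_cases hx : x = 1 <;> simp [hx]
    · simp

lemma lamp_right (a : L) : (lamp a).right = 1 := rfl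
lemma lamp_left_one (a : L) : (lamp a).left 1 = a := by simp [lamp]
lemma lamp_left_ne (a : L) {x : Q} (hx : x ≠ 1) : (lamp a).left x = 1 := by simp [lamp, hx]

lemma lamp_injective : Function.Injective lamp := by
  intro a b h
  have := congrArg (fun g : W => g.left 1) h
  simpa [lamp_left_one] using this

/-- index set for the generators -/
abbrev I := Equiv.Perm (Fin 4) × (Fin 6 → Bool × Bool)

def bz (b : Bool) : ℤ := if b then 1 else 0

/-- base displacement of a generator -/
def disp (c : Fin 6 → Bool × Bool) : Q := fun i => Multiplicative.ofAdd (bz (c i).1 - bz (c i).2)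

/-- auxiliary sign vector -/
def sgn (c : Fin 6 → Bool × Bool) : Fin 6 → ℤˣ := fun i => if (c i).1 && (c i).2 then -1 else 1

/-- the generators -/
def gen (t : I) : W :=
  if disp t.2 = 1 then lamp (t.1, sgn t.2)
  else lamp (t.1, sgn t.2) * RegularWreathProduct.inl (disp t.2) * (lamp (t.1, sgn t.2))⁻¹

lemma gen_right (t : I) : (gen t).right = disp t.2 := by
  unfold gen
  split_ifs with h
  · simp [h, lamp_right]
  · simp [lamp_right]

lemma pair_eq {c c' : Fin 6 → Bool × Bool} (h1 : disp c = disp c') (h2 : sgn c = sgn c') : c = c' := by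
  funext i
  have e1 : bz (c i).1 - bz (c i).2 = bz (c' i).1 - bz (c' i).2 := by
    have := congrFun h1 i
    exact Multiplicative.ofAdd.injective this
  have e2 : (if (c i).1 && (c i).2 then (-1 : ℤˣ) else 1) = if (c' i).1 && (c' i).2 then -1 else 1 :=
    congrFun h2 i
  revert e1 e2
  generalize c i = a
  generalize c' i = b
  revert a b
  decide

lemma conj_left_one (a : L) {q : Q} (hq : q ≠ 1) :
    (lamp a * RegularWreathProduct.inl q * (lamp a)⁻¹).left 1 = a := by
  simp [lamp_right, lamp_left_one]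
  rw [lamp_left_ne]
  simpa using hq

lemma gen_left_one (t : I) : (gen t).left 1 = (t.1, sgn t.2) := by
  unfold gen
  split_ifs with h
  · exact lamp_left_one _
  · exact conj_left_one _ h

lemma gen_injective : Function.Injective gen := by
  intro s t h
  have h1 : disp s.2 = disp t.2 := by rw [← gen_right, ← gen_right, h]
  have h2 : (s.1, sgn s.2) = (t.1, sgn t.2) := by rw [← gen_left_one, ← gen_left_one, h]
  have h3 := pair_eq h1 (Prod.mk.inj h2).2
  exact Prod.ext (Prod.mk.inj h2).1 h3

/-- the neutral index -/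
def i0 : I := (1, fun _ => (false, false))

lemma gen_i0 : gen i0 = 1 := by
  unfold gen
  rw [if_pos]
  · have : ((i0 : I).1, sgn (i0 : I).2) = (1 : L) := by
      ext1
      · rfl
      · funext i; simp [sgn, i0]
    rw [this, map_one]
  · funext i; simp [disp, i0]

lemma disp_zero_inv {σ : Equiv.Perm (Fin 4)} {c : Fin 6 → Bool × Bool} (h : disp c = 1) :
    (gen (σ, c))⁻¹ = gen (σ⁻¹, c) := by
  unfold gen
  rw [if_pos h, if_pos h, ← map_inv]
  congr 1
  refine Prod.ext rfl ?_
  funext i
  simp only [sgn, Prod.snd_inv, Pi.inv_apply]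
  split_ifs <;> rfl

lemma disp_swap (c : Fin 6 → Bool × Bool) : disp (fun i => (c i).swap) = (disp c)⁻¹ := by
  funext i
  simp [disp]

lemma sgn_swap (c : Fin 6 → Bool × Bool) : sgn (fun i => (c i).swap) = sgn c := by
  funext i
  simp [sgn, and_comm]

lemma gen_inv (t : I) : ∃ t' : I, gen t' = (gen t)⁻¹ := by
  obtain ⟨σ, c⟩ := t
  by_cases h : disp c = 1
  · exact ⟨(σ⁻¹, c), (disp_zero_inv h).symm⟩
  · refine ⟨(σ, fun i => (c i).swap), ?_⟩
    unfold gen
    rw [if_neg h, if_neg]
    · simp only [disp_swap, sgn_swap, map_inv, mul_inv_rev, inv_inv, mul_assoc]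
    · simpa [disp_swap] using h

/-! ### supports -/

def HasSupp (g : W) (m : ℕ) : Prop := ∃ A : Finset Q, A.card ≤ m ∧ ∀ x, x ∉ A → g.left x = 1

lemma HasSupp.one : HasSupp 1 0 := ⟨∅, by simp, by simp⟩

lemma HasSupp.mono {g : W} {m k : ℕ} (h : HasSupp g m) (hk : m ≤ k) : HasSupp g k := by
  obtain ⟨A, hA, h⟩ := h
  exact ⟨A, hA.trans hk, h⟩

lemma HasSupp.mul {g h : W} {m k : ℕ} (hg : HasSupp g m) (hh : HasSupp h k) :
    HasSupp (g * h) (m + k) := by
  obtain ⟨A, hA, hg⟩ := hg
  obtain ⟨B, hB, hh⟩ := hh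
  refine ⟨A ∪ B.image (g.right * ·), ?_, ?_⟩
  · exact (card_union_le _ _).trans (add_le_add hA (card_image_le.trans hB))
  · intro x hx
    simp only [mem_union, mem_image, not_or, not_exists, not_and] at hx
    rw [RegularWreathProduct.mul_left, Pi.mul_apply, hg x hx.1, one_mul]
    apply hh
    intro h'
    exact hx.2 _ h' (by simp)

lemma HasSupp.inv {g : W} {m : ℕ} (hg : HasSupp g m) : HasSupp g⁻¹ m := by
  obtain ⟨A, hA, hg⟩ := hg
  refine ⟨A.image (g.right⁻¹ * ·), card_image_le.trans hA, ?_⟩
  intro x hx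
  simp only [mem_image, not_exists, not_and] at hx
  rw [RegularWreathProduct.inv_left]
  simp only [Pi.inv_apply, inv_eq_one]
  apply hg
  intro h'
  exact hx _ h' (by simp)

lemma HasSupp.lamp (a : L) : HasSupp (lamp a) 1 := by
  refine ⟨{1}, by simp, ?_⟩
  intro x hx
  exact lamp_left_ne a (by simpa using hx)

lemma HasSupp.inl (q : Q) : HasSupp (RegularWreathProduct.inl q) 0 := ⟨∅, by simp, by simp⟩

lemma HasSupp.gen (t : I) : HasSupp (gen t) 2 := by
  unfold RW.gen
  split_ifs
  · exact (HasSupp.lamp _).mono (by norm_num)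
  · exact ((HasSupp.lamp _).mul (HasSupp.inl _)).mul (HasSupp.lamp _).inv

lemma HasSupp.listProd (l : List I) : HasSupp (l.map RW.gen).prod (2 * l.length) := by
  induction l with
  | nil => simpa using HasSupp.one
  | cons a l ih =>
    have := (HasSupp.gen a).mul ih
    simp only [List.map_cons, List.prod_cons, List.length_cons]
    exact this.mono (by omega)

/-- key commutation lemma -/
lemma comm_of_disjoint {c z : W} {E : Finset Q} (hc : c.right = 1) (hE : ∀ x, x ∉ E → c.left x = 1)
    (hz : ∀ x ∈ E, ∀ y ∈ E, z.right ≠ x * y⁻¹) :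
    c * (z * c * z⁻¹) = (z * c * z⁻¹) * c := by
  have hr : (z * c * z⁻¹).right = 1 := by simp [hc]
  have hl : ∀ x, (z * c * z⁻¹).left x = z.left x * c.left (z.right⁻¹ * x) * (z.left x)⁻¹ := by
    intro x
    simp [hc]
  generalize hd : z * c * z⁻¹ = d at hr hl
  ext x : 2
  · rw [RegularWreathProduct.mul_left, RegularWreathProduct.mul_left, Pi.mul_apply, Pi.mul_apply,
      hc, hr]
    simp only [inv_one, one_mul]
    rw [hl]
    by_cases hx : x ∈ E
    · have : z.right⁻¹ * x ∉ E := by
        intro hy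
        refine hz x hx _ hy ?_
        simp
      rw [hE _ this]
      simp
    · rw [hE x hx]
      simp
  · rw [RegularWreathProduct.mul_right, RegularWreathProduct.mul_right, hc, hr]

end Pool.Agent.L7h63.RW
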