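import Pool.Agent.L7h63.RW.Basic

open Finset
open scoped commutatorElement

namespace Pool.Agent.L7h63.RW

/-! ### local bound -/

lemma prod_disp (n : ℕ) (t : Fin n → I) (i : Fin 6) :
    (∏ j, disp (t j).2) i = Multiplicative.ofAdd (∑ j, (bz ((t j).2 i).1 - bz ((t j).2 i).2)) := by
  rw [Finset.prod_apply]
  simp only [disp]
  rw [ofAdd_sum]

/-- encoding of the `i`-th coordinate of the steps -/
def code {n : ℕ} (t : Fin n → I) (i : Fin 6) : Finset (Fin n × Bool) :=
  univ.filter (fun p => if p.2 then ((t p.1).2 i).1 = true else ((t p.1).2 i).2 = false)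

lemma mem_code_true {n : ℕ} (t : Fin n → I) (i : Fin 6) (j : Fin n) :
    (j, true) ∈ code t i ↔ ((t j).2 i).1 = true := by simp [code]

lemma mem_code_false {n : ℕ} (t : Fin n → I) (i : Fin 6) (j : Fin n) :
    (j, false) ∈ code t i ↔ ((t j).2 i).2 = false := by simp [code]

lemma card_code {n : ℕ} (t : Fin n → I) (i : Fin 6) :
    ((code t i).card : ℤ) = n + ∑ j, (bz ((t j).2 i).1 - bz ((t j).2 i).2) := by
  unfold code
  rw [card_filter, Fintype.sum_prod_type]
  push_cast
  have : ∀ j : Fin n, (∑ y : Bool, (if (if y then ((t j).2 i).1 = true else ((t j).2 i).2 = false)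
      then (1:ℤ) else 0)) = 1 + (bz ((t j).2 i).1 - bz ((t j).2 i).2) := by
    intro j
    rw [Fintype.sum_bool]
    generalize (t j).2 i = a
    revert a
    decide
  simp_rw [this]
  rw [sum_add_distrib]
  simp

lemma local_bound (n : ℕ) (v : Q) :
    (univ.filter (fun t : Fin n → I => ∏ j, disp (t j).2 = v)).card ≤
      24 ^ n * (Nat.centralBinom n) ^ 6 := by
  classical
  let T : Finset ((Fin n → Equiv.Perm (Fin 4)) × (Fin 6 → Finset (Fin n × Bool))) :=
    univ ×ˢ Fintype.piFinset (fun i => powersetCard ((n + Multiplicative.toAdd (v i) : ℤ).toNat) univ)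
  have h1 : (univ.filter (fun t : Fin n → I => ∏ j, disp (t j).2 = v)).card ≤ T.card := by
    refine card_le_card_of_injOn (fun t => (fun j => (t j).1, fun i => code t i)) ?_ ?_
    · intro t ht
      simp only [coe_filter, mem_univ, true_and, Set.mem_ofPred_eq] at ht
      simp only [T, coe_product, Set.mem_prod, coe_univ, Set.mem_univ, true_and, mem_coe,
        Fintype.mem_piFinset, mem_powersetCard, subset_univ]
      intro i
      have := card_code t i
      have h2 : Multiplicative.toAdd (v i) = ∑ j, (bz ((t j).2 i).1 - bz ((t j).2 i).2) := by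
        rw [← ht, prod_disp]; rfl
      rw [h2, ← this]
      simp
    · intro s _ t _ hst
      have h1 := (Prod.mk.inj hst).1
      have h2 := (Prod.mk.inj hst).2
      funext j
      refine Prod.ext (congrFun h1 j) ?_
      funext i
      have h3 : code s i = code t i := congrFun h2 i
      have e1 := mem_code_true s i j
      have e2 := mem_code_false s i j
      rw [h3] at e1 e2
      rw [mem_code_true] at e1
      rw [mem_code_false] at e2
      revert e1 e2
      generalize (s j).2 i = a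
      generalize (t j).2 i = b
      revert a b
      decide
  refine h1.trans ?_
  simp only [T, card_product, card_univ, Fintype.card_piFinset, card_powersetCard,
    Fintype.card_prod, Fintype.card_fin, Fintype.card_bool, Fintype.card_fun, Fintype.card_perm]
  refine Nat.mul_le_mul (by simp [Nat.factorial]) ?_
  calc ∏ x : Fin 6, (n * 2).choose ((n + Multiplicative.toAdd (v x) : ℤ).toNat)
      ≤ ∏ x : Fin 6, Nat.centralBinom n := by
        refine prod_le_prod' (fun i _ => ?_)
        rw [mul_comm n 2]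
        exact Nat.choose_le_centralBinom _ _
    _ = (Nat.centralBinom n) ^ 6 := by simp

lemma centralBinom_sq (n : ℕ) : (Nat.centralBinom n) ^ 2 * (2 * n + 1) ≤ 16 ^ n := by
  induction n with
  | zero => simp
  | succ n ih =>
    have h := Nat.succ_mul_centralBinom_succ n
    have h2 : ((n + 1) * Nat.centralBinom (n + 1)) ^ 2 = (2 * (2 * n + 1)) ^ 2 * (Nat.centralBinom n) ^ 2 := by
      rw [h]; ring
    have h3 : (n + 1) ^ 2 * ((Nat.centralBinom (n + 1)) ^ 2 * (2 * (n + 1) + 1)) ≤
        (n + 1) ^ 2 * 16 ^ (n + 1) := by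
      calc (n + 1) ^ 2 * ((Nat.centralBinom (n + 1)) ^ 2 * (2 * (n + 1) + 1))
          = ((n + 1) * Nat.centralBinom (n + 1)) ^ 2 * (2 * n + 3) := by ring
        _ = 4 * ((2 * n + 1) * (2 * n + 3)) * ((Nat.centralBinom n) ^ 2 * (2 * n + 1)) := by
            rw [h2]; ring
        _ ≤ 4 * ((2 * n + 1) * (2 * n + 3)) * 16 ^ n := by gcongr
        _ ≤ 16 * (n + 1) ^ 2 * 16 ^ n := by
            refine Nat.mul_le_mul_right _ ?_
            nlinarith
        _ = (n + 1) ^ 2 * 16 ^ (n + 1) := by ring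
    exact Nat.le_of_mul_le_mul_left h3 (by positivity)

/-! ### the walk -/

/-- the position in `W` after performing the steps `s` -/
def pos {n : ℕ} (s : Fin n → I) : W := (List.ofFn (fun j => gen (s j))).prod

lemma pos_right {n : ℕ} (s : Fin n → I) : (pos s).right = ∏ j, disp (s j).2 := by
  have h : ∀ l : List W, (l.prod).right = (l.map (fun g => g.right)).prod := by
    intro l
    exact map_list_prod (RegularWreathProduct.rightHom : W →* Q) l
  rw [pos, h, List.map_ofFn, List.prod_ofFn]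
  exact Finset.prod_congr rfl (fun j _ => gen_right _)

lemma pos_supp {n : ℕ} (s : Fin n → I) : HasSupp (pos s) (2 * n) := by
  have := HasSupp.listProd (List.ofFn s)
  rw [List.map_ofFn, List.length_ofFn] at this
  exact this

/-- the word `[[x,y], z[x,y]z⁻¹]` -/
def word : FreeGroup (Fin 3) :=
  let x : FreeGroup (Fin 3) := FreeGroup.of 0
  let y : FreeGroup (Fin 3) := FreeGroup.of 1
  let z : FreeGroup (Fin 3) := FreeGroup.of 2
  let c : FreeGroup (Fin 3) := ⁅x, y⁆
  ⁅c, z * c * z⁻¹⁆

lemma lift_word {G : Type*} [Group G] (g : Fin 3 → G) :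
    FreeGroup.lift g word = ⁅⁅g 0, g 1⁆, g 2 * ⁅g 0, g 1⁆ * (g 2)⁻¹⁆ := by
  simp [word, commutatorElement_def]

lemma comm_supp {n : ℕ} (s t : Fin n → I) : HasSupp ⁅pos s, pos t⁆ (8 * n) := by
  rw [commutatorElement_def]
  exact ((((pos_supp s).mul (pos_supp t)).mul (pos_supp s).inv).mul (pos_supp t).inv).mono (by omega)

lemma comm_right {n : ℕ} (s t : Fin n → I) : (⁅pos s, pos t⁆ : W).right = 1 := by
  rw [commutatorElement_def]
  simp only [RegularWreathProduct.mul_right, RegularWreathProduct.inv_right]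
  rw [mul_right_comm, mul_inv_cancel_right, mul_inv_cancel]

lemma bad_set {n : ℕ} (s t : Fin n → I) : ∃ D : Finset Q, D.card ≤ 64 * n ^ 2 ∧
    ∀ u : Fin n → I, (∏ j, disp (u j).2) ∉ D →
      ⁅(⁅pos s, pos t⁆ : W), pos u * ⁅pos s, pos t⁆ * (pos u)⁻¹⁆ = 1 := by
  classical
  obtain ⟨E, hE, hE'⟩ := comm_supp s t
  refine ⟨(E ×ˢ E).image (fun p => p.1 * p.2⁻¹), ?_, ?_⟩
  · refine card_image_le.trans ?_
    rw [card_product]
    calc E.card * E.card ≤ (8 * n) * (8 * n) := Nat.mul_le_mul hE hE
      _ = 64 * n ^ 2 := by ring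
  · intro u hu
    rw [commutatorElement_eq_one_iff_mul_comm]
    refine comm_of_disjoint (comm_right s t) hE' ?_
    intro x hx y hy h
    apply hu
    rw [← pos_right, h]
    exact mem_image.mpr ⟨(x, y), mem_product.mpr ⟨hx, hy⟩, rfl⟩

/-- the families of step sequences at which the word is not satisfied -/
noncomputable def bad (n : ℕ) : Finset (Fin 3 → Fin n → I) := by
  classical
  exact univ.filter (fun s => FreeGroup.lift (fun i => pos (s i)) word ≠ 1)

lemma card_bad (n : ℕ) : (bad n).card ≤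
    ((64 * n ^ 2) * (24 ^ n * (Nat.centralBinom n) ^ 6)) * ((Fintype.card I) ^ n * (Fintype.card I) ^ n) := by
  classical
  have := card_le_mul_card_image_of_maps_to (s := bad n)
    (t := (univ : Finset ((Fin n → I) × (Fin n → I)))) (f := fun s => (s 0, s 1)) (by simp)
    ((64 * n ^ 2) * (24 ^ n * (Nat.centralBinom n) ^ 6)) ?_
  · refine this.trans (le_of_eq ?_)
    simp [card_univ]
  · rintro ⟨x, y⟩ _
    obtain ⟨D, hD, hD'⟩ := bad_set x y
    have h1 : ((bad n).filter (fun s => (s 0, s 1) = (x, y))).card ≤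
        (D.biUnion (fun v => univ.filter (fun t : Fin n → I => ∏ j, disp (t j).2 = v))).card := by
      refine card_le_card_of_injOn (fun s => s 2) ?_ ?_
      · intro s hs
        simp only [coe_filter, Set.mem_ofPred_eq, Prod.mk.injEq, bad, mem_filter, mem_univ,
          true_and] at hs
        obtain ⟨hs, h0, h1⟩ := hs
        simp only [coe_biUnion, Set.mem_iUnion, coe_filter, mem_univ, true_and, mem_coe,
          Set.mem_ofPred_eq, exists_prop, exists_eq_right']
        by_contra hc
        apply hs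
        rw [lift_word, h0, h1]
        exact hD' _ hc
      · intro s hs t ht hst
        simp only [coe_filter, Set.mem_ofPred_eq, Prod.mk.injEq] at hs ht
        funext i
        fin_cases i
        · exact hs.2.1.trans ht.2.1.symm
        · exact hs.2.2.trans ht.2.2.symm
        · exact hst
    refine h1.trans (card_biUnion_le.trans ?_)
    calc ∑ v ∈ D, (univ.filter (fun t : Fin n → I => ∏ j, disp (t j).2 = v)).card
        ≤ ∑ v ∈ D, 24 ^ n * (Nat.centralBinom n) ^ 6 := sum_le_sum (fun v _ => local_bound n v)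
      _ = D.card * (24 ^ n * (Nat.centralBinom n) ^ 6) := by simp
      _ ≤ (64 * n ^ 2) * (24 ^ n * (Nat.centralBinom n) ^ 6) := by gcongr

lemma card_I : Fintype.card I = 24 * 4 ^ 6 := by
  simp [I, Fintype.card_perm, Nat.factorial]

lemma bad_ratio (n : ℕ) : ((bad n).card : ℝ) / ((Fintype.card I : ℝ) ^ n) ^ 3 ≤
    64 * (n : ℝ) ^ 2 / (2 * n + 1) ^ 3 := by
  have h1 : ((bad n).card : ℝ) ≤
      ((64 * (n : ℝ) ^ 2) * (24 ^ n * (Nat.centralBinom n : ℝ) ^ 6)) *
        ((Fintype.card I : ℝ) ^ n * (Fintype.card I : ℝ) ^ n) := by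
    exact_mod_cast card_bad n
  have hI : (0 : ℝ) < (Fintype.card I : ℝ) ^ n := by
    have : (0 : ℝ) < Fintype.card I := by rw [card_I]; norm_num
    positivity
  have h2 : ((Nat.centralBinom n : ℝ)) ^ 2 * (2 * n + 1) ≤ 16 ^ n := by
    exact_mod_cast centralBinom_sq n
  have h3 : (Nat.centralBinom n : ℝ) ^ 6 * (2 * n + 1) ^ 3 ≤ (16 ^ n) ^ 3 := by
    calc (Nat.centralBinom n : ℝ) ^ 6 * (2 * n + 1) ^ 3
        = (((Nat.centralBinom n : ℝ)) ^ 2 * (2 * n + 1)) ^ 3 := by ring
      _ ≤ (16 ^ n) ^ 3 := by gcongr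
  have h4 : (Fintype.card I : ℝ) ^ n = 24 ^ n * (16 ^ n) ^ 3 := by
    rw [card_I]
    rw [← pow_mul, mul_comm n 3, pow_mul (16 : ℝ), ← mul_pow]
    norm_num
  rw [div_le_div_iff₀ (by positivity) (by positivity)]
  calc ((bad n).card : ℝ) * (2 * n + 1) ^ 3
      ≤ (((64 * (n : ℝ) ^ 2) * (24 ^ n * (Nat.centralBinom n : ℝ) ^ 6)) *
        ((Fintype.card I : ℝ) ^ n * (Fintype.card I : ℝ) ^ n)) * (2 * n + 1) ^ 3 := by gcongr
    _ = (64 * (n : ℝ) ^ 2) * (24 ^ n * ((Nat.centralBinom n : ℝ) ^ 6 * (2 * n + 1) ^ 3)) *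
        ((Fintype.card I : ℝ) ^ n * (Fintype.card I : ℝ) ^ n) := by ring
    _ ≤ (64 * (n : ℝ) ^ 2) * (24 ^ n * (16 ^ n) ^ 3) *
        ((Fintype.card I : ℝ) ^ n * (Fintype.card I : ℝ) ^ n) := by gcongr
    _ = 64 * (n : ℝ) ^ 2 * (((Fintype.card I : ℝ) ^ n) ^ 3) := by rw [← h4]; ring

end Pool.Agent.L7h63.RW
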